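import Mathlib
import Pool.Agent.Q146.TallPyramid

/-!
# The identity `N*(P^d(h)) = N*(C^(d-1)) + 1` fails in every dimension

In every dimension `n + 1 ≥ 2` two copies of the pyramid suffice for all large heights (the second copy
lies on its side: rotations push the unit `n`-cube strictly inside the prism over the unit `n`-cube),
while `N*(C^n) ≥ 2`.
-/

set_option autoImplicit false

namespace Pool.Agent.Results.MP_5875c4_co.TallPyramids

open Set

/-- Euclidean space. -/
abbrev E (d : ℕ) : Type := EuclideanSpace ℝ (Fin d)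

/-- The union of `n` congruent copies of `C` contains an open set that contains `C` (for compact `C`:
contains `C + ε B` for some `ε > 0`). -/
def Covers {d : ℕ} (C : Set (E d)) (n : ℕ) : Prop :=
  ∃ (g : Fin n → (E d ≃ᵢ E d)) (U : Set (E d)), IsOpen U ∧ C ⊆ U ∧ U ⊆ ⋃ i, g i '' C

/-- The Newton covering number. -/
noncomputable def newton {d : ℕ} (C : Set (E d)) : ℕ := sInf {n : ℕ | Covers C n}

/-- The unit cube `[0,1]^n`. -/
def cube (n : ℕ) : Set (E n) := {x | ∀ i, 0 ≤ x i ∧ x i ≤ 1}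

/-- The right pyramid of height `h` over the unit `n`-cube in `E (n + 1)`: the convex hull of the
base `[0,1]^n × {0}` and the apex `(1/2, ..., 1/2, h)`. -/
def pyramid (n : ℕ) (h : ℝ) : Set (E (n + 1)) :=
  convexHull ℝ ({x | (∀ i : Fin n, 0 ≤ x i.castSucc ∧ x i.castSucc ≤ 1) ∧ x (Fin.last n) = 0} ∪
    {x | (∀ i : Fin n, x i.castSucc = 1 / 2) ∧ x (Fin.last n) = h})

/-- In every dimension `d = n + 1 ≥ 2` there is a height `h₀` such that for all `h ≥ h₀`
`N*(P^d(h)) = 2 < 3 ≤ N*(C^(d-1)) + 1`. -/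
theorem result : ∀ n : ℕ, 1 ≤ n → ∃ h₀ : ℝ, 0 < h₀ ∧ ∀ h, h₀ ≤ h →
    newton (pyramid n h) = 2 ∧ 3 ≤ newton (cube n) + 1 := by
  intro n hn
  obtain ⟨h₀, h1, h2⟩ := Q146.TallPyramid.newton_eq_two hn
  have h3 : 2 ≤ newton (cube n) := Q146.TallPyramid.two_le_newton_cube hn
  exact ⟨h₀, h1, fun h hh => ⟨h2 h hh, by omega⟩⟩

end Pool.Agent.Results.MP_5875c4_co.TallPyramids
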